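import Pool.Agent.H367.OS.OTan

/-!
# The motivic Mumford-Tate conjecture and single pieces of one sequence of cubics

A relation `r` of size `m` is one of the equations `x_i x_j = x_l`, `x_i + x_j = x_l`, `x_i = 1` with
`i, j, l < m`; the relations are numbered, the number of `r` is `ν(r)` (`relNum`). Let `G_m` be the
following polynomial with integral coefficients (`univG ℤ m`). There are variables `x_i` and `z_ij` for
`i, j < m`, a variable `c_r` for every relation `r`, and variables `y_{r,l}` for all relations `r` and
`l < (m + 1) 2 ^ ν(r)`. The equations (`eqnG`) are

  `z_ij - x_i x_j`,  `c_r ^ 2 - c_r`,  `c_r ρ_r`,  `(1 - c_r) y_{r,l}`,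

where `ρ_r` is the linear polynomial `z_ij - x_l`, `x_i + x_j - x_l` or `x_i - 1` of the relation.
`G_m` is the sum of the equations multiplied by further variables `t_e`, one for each equation. It has
degree three. Let `C_m` be the affine cubic hypersurface `G_m = 1` (`cubG R m` over the ring `R`); it is
smooth over the integers.

Let `ℓ` be a prime number, and let `M` be the category `Mot_ℚ` of motives over `ℚ` (for motivated
cycles or for absolute Hodge cycles), a semisimple abelian category with Tate twists `N ↦ N(a)`. For a
separated scheme `X` of finite type over `ℚ` let `D.G w j X = Gr^W_w H^j_c(X)` be the part of weight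
`w` of the cohomology with compact supports, a motive over `ℚ`; for smooth projective `Y` it is
`h^j(Y)` if `j = w`, and zero otherwise.

Let `E` be the algebraic closure of `ℚ_ℓ` and `W N = ω(N) ⊗ E` for the Betti realization `ω(N)`. The
group `P.A N` is the group of the `E`-points of the Mumford-Tate group `G_σ(N)` of `N`, and `P.B N`
the group of the `E`-points of the identity component `G°_{ℓ,ℚ}(N)` of the `ℓ`-adic monodromy group of
`N`; both are subgroups of `GL(W N)`. `Same P N` is the equality `G°_{ℓ}(N) = G_σ(N)` of question Q1
for `N`. For a direct factor of `N` the two groups are the images by restriction (hypotheses `mt`,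
`gl`).

For a finitely generated field `K` of characteristic zero let `Obj K` be the motives over `K` (with an
embedding of `K` in `ℂ`) and `Holds K N` the equality for `N`; `AllMotives Obj Holds` is question Q1
(for `ℓ`). It follows from the conjecture for `ℚ` (hypothesis `FromMotives`): by Serre a motive over
`K` has a specialization over a number field with the same `ℓ`-adic monodromy group, and its
Mumford-Tate group is then the same by the equality and the theorem of the fixed part; for a number
field use the restriction of scalars.

The equality is true for a motive `N` over `ℚ` if it is true for the motive `h^i(Y)` of a suitable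
smooth projective variety `Y` in one degree `i` (hypothesis `exhausts`): `N` is a direct factor of a sum
of motives `h^{i_j}(Y_j)(a_j)`; take `Y = ∏ Y_j × C ^ i` for an elliptic curve `C` and a large `i`. Let
`N'` be the sum of `N`, of the `h^{i_j}(Y_j)` and of `h^1(C)`. The kernel of the map from the group of
`N'` to the group of `h^i(Y)` consists of values of the weight cocharacter, which are contained in the
`ℓ`-adic monodromy group of `N'`; so the equality for `h^i(Y)` implies those for `N'` and `N`.

**Theorem.** Let `E_m` be the number of the equations, and for `N ∈ ℕ` let `e = (m + 1) N + E_m - 1`
(`esh m N`).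

(1) Question Q1 (at `ℓ`) has a positive answer for all motives over all finitely generated fields of
characteristic zero if and only if for infinitely many `m` the equality is true for the Tate twists of
the single motives `Gr^W_{j-1} H^j_c(C_m)`, for all `j`.

(2) For every motive `N` over `ℚ` and all large `m` there are `j` and `t` such that the equality for
the single motive `Gr^W_{j-1} H^j_c(C_m)(t)` implies the equality for `N`.

(3) The hypersurfaces `C_m` decide the statement for the pieces of the cohomology (`DecidesPieces`).
For every affine scheme `Spec B` of finite type over `ℚ` and all large `m` there is an `N` such that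
for `0 ≤ w ≤ 2 m + 1` and all `j` the statement for `Gr^W_w H^j_c(Spec B)` is equivalent to the one
for `Gr^W_{w+2e} H^{j+2e+1}_c(C_m)`. For every smooth projective `Y` over `ℚ`, every `d` and all large
`m` there is an `e'` such that for all `i ≤ d` the statement for `h^i(Y)` is equivalent to the one for
`Gr^W_{i+2e'} H^{i+2e'+1}_c(C_m)`. The statements for the pieces of one `C_m` imply those for all
pieces of a given separated scheme `X` of finite type. (In all these statements there are the same
Tate twists on both sides, up to the shift by `e`.)

(4) `G_m` has integral coefficients and degree at most three, and `C_m` is smooth over all rings.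

The hypotheses on the motives are standard (`IsMot`): exact sequences, affine bundles, disjoint unions,
the cohomology of affine spaces, the weights of `H^j_c(X)` are between `0` and `2 dim X`, monomorphisms
split, `Gr^W_w H^j_c(X)` is a direct factor of `h^w(Y)` for some smooth projective `Y` (it is a
subquotient, by the weight spectral sequence), and every smooth projective scheme has an affine bundle
whose total space is affine (Jouanolou).

Idea of the proof. The projection of `C_m` to the affine space with the coordinates `x, z, c, y` is an
affine bundle over the complement of the zero set `W_m` of the equations. The scheme `W_m` is the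
disjoint union, over all sets `s` of relations (`c_r = 1` for `r ∈ s` and `c_r = 0` for the others), of
the products `X_s × 𝔸 ^ ((m + 1) N(s))`, where `X_s` is the affine scheme defined by the relations in
`s` and `N(s) = ∑_{r ∈ s} 2 ^ ν(r)`. The numbers `N(s)` are different, and the weights of the
cohomology of `X_s` are between `0` and `2 m`. So the part of weight `w + 2 (m + 1) N(s)`,
`0 ≤ w ≤ 2 m + 1`, of the cohomology of `W_m` is the twist of the part of weight `w` of the cohomology of
`X_s`, and it is different from the weight of the cohomology of the affine space. Every affine scheme of
finite type over a prime field is an `X_s`, for all large `m`. The pieces of the cohomology of an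
arbitrary scheme are direct factors of those of a disjoint union of affine schemes.

The universal system of relations is the one of helper854 (`Pool.Agent.H854.SQ`).
-/

set_option autoImplicit false

open CategoryTheory CategoryTheory.Limits AlgebraicGeometry Pool.Agent.Y116.UV Pool.Agent.Z125.UN
  Pool.Agent.Q193.LT Pool.Agent.H854.SQ Pool.Agent.H367.OS Pool.Agent.Q137.UO

universe v u u'



namespace Pool.Agent.H367.Moved.PiecesDe8692

/-- **The motivic Mumford-Tate conjecture and single pieces of one sequence of cubic hypersurfaces over the
integers.** See the explanations above. -/
theorem result {ℓ : ℕ} [Fact ℓ.Prime] {M : Type u} [Category.{v} M] [Abelian M] {D : Pieces ℚ M}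
    (h : IsMot D) {W : M ⥤ ModuleCat.{0} (AlgebraicClosure ℚ_[ℓ])}
    {P : GroupPair W} (mt : Restricts P.A) (gl : Restricts P.B)
    (exhausts : Exhausts D (Same P)) {Obj : ∀ (K : Type) [Field K] [CharZero K], Type u'}
    {Holds : ∀ (K : Type) [Field K] [CharZero K], Obj K → Prop}
    (describes : FromMotives Obj Holds (Same P)) :
    (AllMotives Obj Holds ↔ ∃ᶠ m in Filter.atTop, ∀ j t : ℤ,
      Same P ((D.tw t).obj (D.G (j - 1) j (cubG ℚ m)))) ∧
    (∀ N : M, ∃ m₀ : ℕ, ∀ m, m₀ ≤ m → ∃ j t : ℤ,
      Same P ((D.tw t).obj (D.G (j - 1) j (cubG ℚ m))) → Same P N) ∧
    DecidesPieces D (Same P) ∧
    ∀ m : ℕ, (univG ℤ m).totalDegree ≤ 3 ∧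
      ∀ (R : Type) [CommRing R], MvPolynomial.map (Int.castRingHom R) (univG ℤ m) = univG R m ∧
        Smooth (cubG R m).hom := by
  have hf : FactorClosed (Same P) := same_closed mt gl
  have hd := decides_pieces isPrimeField_rat h hf
  exact ⟨describes.all.trans (all_motives hd exhausts), one_motive hd exhausts, hd, cubG_facts⟩

end Pool.Agent.H367.Moved.PiecesDe8692
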